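import Mathlib
import Pool.Agent.Lib.helper23.ShiftB

namespace Pool.Agent.Results.MP_0764b2_an.ShiftNotGH

open scoped ENNReal NNReal
open Filter Topology Pool.Agent.Lib.helper23.ShiftA Pool.Agent.Lib.helper23.ShiftB

/-- The spectral radius of a bounded operator over `ℝ` or `ℂ`, by Gelfand's formula. -/
noncomputable def specRad {𝕜 E : Type} [RCLike 𝕜] [NormedAddCommGroup E] [NormedSpace 𝕜 E]
    (A : E →L[𝕜] E) : ℝ≥0∞ :=
  limsup (fun n : ℕ => (‖A ^ n‖₊ : ℝ≥0∞) ^ (1 / n : ℝ)) atTop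

/-- Over `ℂ` this is Mathlib's spectral radius. -/
theorem specRad_eq {E : Type} [NormedAddCommGroup E] [NormedSpace ℂ E] [CompleteSpace E]
    (A : E →L[ℂ] E) : specRad A = spectralRadius ℂ A :=
  (spectrum.pow_nnnorm_pow_one_div_tendsto_nhds_spectralRadius A).limsup_eq

/-- The shadowing property. -/
def Shadowing {𝕜 E : Type} [RCLike 𝕜] [NormedAddCommGroup E] [NormedSpace 𝕜 E]
    (T : E ≃L[𝕜] E) : Prop :=
  ∃ K : ℝ, 0 < K ∧ ∀ z : ℤ → E, BddAbove (Set.range fun n => ‖z n‖) →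
    ∃ y : ℤ → E, BddAbove (Set.range fun n => ‖y n‖) ∧ (∀ n, y (n + 1) - T (y n) = z n) ∧
      ⨆ n, ‖y n‖ ≤ K * ⨆ n, ‖z n‖

/-- `A` maps `M` into `M`. -/
def Invar {𝕜 E : Type} [RCLike 𝕜] [NormedAddCommGroup E] [NormedSpace 𝕜 E]
    (A : E →L[𝕜] E) (M : Submodule 𝕜 E) : Prop := ∀ x ∈ M, A x ∈ M

/-- The restriction of `A` to an invariant subspace. -/
def res {𝕜 E : Type} [RCLike 𝕜] [NormedAddCommGroup E] [NormedSpace 𝕜 E]
    (A : E →L[𝕜] E) (M : Submodule 𝕜 E) (h : Invar A M) : M →L[𝕜] M := A.restrict h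

/-- `M` is closed, `A` maps `M` into `M`, and `A|_M` has spectral radius `< 1`. -/
def Contracts {𝕜 E : Type} [RCLike 𝕜] [NormedAddCommGroup E] [NormedSpace 𝕜 E]
    (A : E →L[𝕜] E) (M : Submodule 𝕜 E) : Prop :=
  IsClosed (M : Set E) ∧ ∃ h : Invar A M, specRad (res A M h) < 1

/-- Generalized hyperbolicity. -/
def GenHyp {𝕜 E : Type} [RCLike 𝕜] [NormedAddCommGroup E] [NormedSpace 𝕜 E]
    (T : E ≃L[𝕜] E) : Prop :=
  ∃ M N : Submodule 𝕜 E, IsCompl M N ∧ Contracts (T : E →L[𝕜] E) M ∧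
    Contracts (T.symm : E →L[𝕜] E) N

/-- `S` is a sequence of invertible operators with `sup max (‖S n‖, ‖(S n)⁻¹‖) < ∞`. -/
def UnifBdd {𝕜 X : Type} [RCLike 𝕜] [NormedAddCommGroup X] [NormedSpace 𝕜 X]
    (S : ℤ → X ≃L[𝕜] X) : Prop :=
  ∃ C : ℝ, ∀ n, ‖(S n : X →L[𝕜] X)‖ ≤ C ∧ ‖((S n).symm : X →L[𝕜] X)‖ ≤ C

/-- On the space `B`, whose elements are read as sequences through `seq`, some shift operator has
the shadowing property and is not generalized hyperbolic. -/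
def Counterexample (𝕜 X B : Type) [RCLike 𝕜] [NormedAddCommGroup X] [NormedSpace 𝕜 X]
    [NormedAddCommGroup B] [NormedSpace 𝕜 B] (seq : B → ℤ → X) : Prop :=
  ∃ (S : ℤ → X ≃L[𝕜] X) (σ : B ≃L[𝕜] B),
    UnifBdd S ∧ (∀ (x : B) (n : ℤ), seq (σ x) n = S (n + 1) (seq x (n + 1))) ∧
    Shadowing σ ∧ ¬ GenHyp σ

theorem ev_of_specRad {𝕜 E : Type} [RCLike 𝕜] [NormedAddCommGroup E] [NormedSpace 𝕜 E]
    (A : E →L[𝕜] E) (M : Submodule 𝕜 E) (hM : ∀ x ∈ M, A x ∈ M)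
    (h : specRad (A.restrict hM) < 1) : ∀ᶠ k in atTop, ∀ x ∈ M, ‖A^[k] x‖ ≤ ‖x‖ := by
  have h1 := eventually_lt_of_limsup_lt h
  filter_upwards [h1, eventually_gt_atTop 0] with k hk hk0 x hx
  have h2 : ‖(A.restrict hM) ^ k‖₊ ≤ 1 := by
    by_contra hc
    push Not at hc
    have : (1 : ℝ≥0∞) ≤ (‖(A.restrict hM) ^ k‖₊ : ℝ≥0∞) ^ (1 / k : ℝ) :=
      ENNReal.one_le_rpow (by exact_mod_cast hc.le) (by positivity)
    exact absurd hk (not_lt.2 this)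
  have h3 : ‖(A.restrict hM) ^ k‖ ≤ 1 := by exact_mod_cast h2
  have h4 : ∀ (n : ℕ) (x : M), (((A.restrict hM) ^ n) x : E) = A^[n] x := by
    intro n
    induction n with
    | zero => intro x; rfl
    | succ n ih =>
      intro x
      rw [pow_succ', Function.iterate_succ_apply', ← ih]
      rfl
  have h5 := ((A.restrict hM) ^ k).le_opNorm ⟨x, hx⟩
  have h6 : ‖((A.restrict hM) ^ k) ⟨x, hx⟩‖ = ‖A^[k] x‖ := by
    rw [← h4 k ⟨x, hx⟩]; rfl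
  rw [h6] at h5
  have h7 : ‖(⟨x, hx⟩ : M)‖ = ‖x‖ := rfl
  rw [h7] at h5
  exact h5.trans (mul_le_of_le_one_left (norm_nonneg _) h3)

theorem lsplit_of_genHyp {𝕜 E : Type} [RCLike 𝕜] [NormedAddCommGroup E] [NormedSpace 𝕜 E]
    [CompleteSpace E] (T : E ≃L[𝕜] E) (h : GenHyp T) :
    ∃ (L : E →ₗ[𝕜] E) (C : ℝ), 0 ≤ C ∧ ∀ᶠ k in atTop, ∀ y, ‖T^[k] (L y)‖ ≤ C * ‖y‖ ∧
      ‖T.symm^[k] (y - L y)‖ ≤ C * ‖y‖ := by
  obtain ⟨M, N, hc, ⟨hMc, hM, h1⟩, hNc, hN, h2⟩ := h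
  have ht := Submodule.IsCompl.isTopCompl_of_isClosed hc hMc hNc
  let P : E →L[𝕜] M := M.projectionOntoL N ht
  have hP : ∀ y, (P y : E) = M.projection N hc y := fun y => rfl
  refine ⟨M.projection N hc, ‖P‖ + 1, by positivity, ?_⟩
  filter_upwards [ev_of_specRad _ M hM h1, ev_of_specRad _ N hN h2] with k k1 k2 y
  have a1 : ‖M.projection N hc y‖ ≤ ‖P‖ * ‖y‖ := by
    rw [← hP]; exact P.le_opNorm y
  have a2 : y - M.projection N hc y ∈ N := by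
    have := Submodule.projection_add_projection_eq_self hc y
    have e : y - M.projection N hc y = N.projection M hc.symm y := by
      rw [sub_eq_iff_eq_add']; exact this.symm
    rw [e]
    exact Submodule.projection_apply_mem _ _
  refine ⟨?_, ?_⟩
  · have := k1 _ (Submodule.projection_apply_mem hc y)
    change ‖T^[k] _‖ ≤ _ at this
    nlinarith [norm_nonneg y]
  · have := k2 _ a2
    change ‖T.symm^[k] _‖ ≤ _ at this
    nlinarith [norm_sub_le y (M.projection N hc y)]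

theorem descend {𝕜 X : Type} [RCLike 𝕜] [NormedAddCommGroup X] [NormedSpace 𝕜 X]
    [CompleteSpace X] (p : ℝ≥0∞) [Fact (1 ≤ p)] (T : X ≃L[𝕜] X)
    (h : GenHyp (shiftE p (Equiv.addRight (1 : ℤ)) T)) :
    ∃ (L : X →ₗ[𝕜] X) (C : ℝ), 0 ≤ C ∧ ∀ᶠ k in atTop, ∀ y, ‖T^[k] (L y)‖ ≤ C * ‖y‖ ∧
      ‖T.symm^[k] (y - L y)‖ ≤ C * ‖y‖ := by
  have hp0 : (0 : ℝ≥0∞) < p := zero_lt_one.trans_le Fact.out
  obtain ⟨L, C, hC, hL⟩ := lsplit_of_genHyp _ h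
  let ι : X →L[𝕜] lp (fun _ : ℤ => X) p := lp.singleContinuousLinearMap 𝕜 (fun _ : ℤ => X) p 0
  let π : lp (fun _ : ℤ => X) p →L[𝕜] X := lp.evalCLM 𝕜 (fun _ : ℤ => X) p 0
  have hι : ∀ y, ‖ι y‖ = ‖y‖ := fun y => lp.norm_single (E := fun _ : ℤ => X) hp0 0 y
  have hι0 : ∀ y, (ι y) 0 = y := fun y => lp.single_apply_self (E := fun _ : ℤ => X) p 0 y
  refine ⟨π.toLinearMap ∘ₗ L ∘ₗ ι.toLinearMap, C, hC, ?_⟩
  filter_upwards [hL] with k hk y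
  obtain ⟨k1, k2⟩ := hk (ι y)
  rw [hι] at k1 k2
  refine ⟨le_trans ?_ k1, le_trans ?_ k2⟩
  · have := lp.norm_apply_le_norm hp0.ne'
      ((shiftE p (Equiv.addRight 1) T)^[k] (L (ι y))) ((Equiv.addRight (1 : ℤ) ^ k).symm 0)
    rw [shiftE_iter, Equiv.apply_symm_apply] at this
    exact this
  · have := lp.norm_apply_le_norm hp0.ne'
      ((shiftE p (Equiv.addRight 1) T).symm^[k] (ι y - L (ι y)))
      (((Equiv.addRight (1 : ℤ)).symm ^ k).symm 0)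
    rw [shiftE_symm_iter, Equiv.apply_symm_apply, lp.coeFn_sub, Pi.sub_apply, hι0] at this
    exact this

theorem result (𝕜 : Type) [RCLike 𝕜] (p : ℝ≥0∞) [Fact (1 ≤ p)] :
    ∃ (X : Type) (_ : NormedAddCommGroup X) (_ : NormedSpace 𝕜 X),
      CompleteSpace X ∧ Counterexample 𝕜 X (lp (fun _ : ℤ => X) p) (fun x n => x n) := by
  refine ⟨Y 𝕜, inferInstance, inferInstance, inferInstance, fun _ => T 𝕜,
    shiftE p (Equiv.addRight 1) (T 𝕜),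
    ⟨max ‖(T 𝕜 : Y 𝕜 →L[𝕜] Y 𝕜)‖ ‖((T 𝕜).symm : Y 𝕜 →L[𝕜] Y 𝕜)‖,
      fun _ => ⟨le_max_left _ _, le_max_right _ _⟩⟩, fun _ _ => rfl, ?_, ?_⟩
  · refine ⟨4 * 2, by norm_num, fun z hz => ?_⟩
    obtain ⟨y, h1, h2⟩ := shadow_of_nsplit _ 2 (by norm_num)
      (nsplit_shift p (Equiv.addRight 1) (T 𝕜) 2 (by norm_num) (nsplit_T 𝕜)) z (⨆ n, ‖z n‖)
      (fun n => le_ciSup hz n)
    exact ⟨y, ⟨_, by rintro _ ⟨n, rfl⟩; exact h2 n⟩, h1, ciSup_le h2⟩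
  · intro h
    obtain ⟨L, C, hC, hL⟩ := descend p (T 𝕜) h
    exact no_lsplit 𝕜 L C hC hL

end Pool.Agent.Results.MP_0764b2_an.ShiftNotGH
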